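import Mathlib
import Pool.Agent.H79.TD.Stm5
import Pool.Agent.H79.TD.Fin
import Pool.Agent.H77.GR.Td
import Pool.Agent.H77.TF.Ful
import Pool.Agent.H15.TF.CIB
import Pool.Agent.H22.TF.Mdt
import Pool.Agent.H39.TF.Stp
import Pool.Agent.H75.TF.Suf

/-!
# Project TD: the merged theorem (numerical criterion and complete intersections)
-/

set_option autoImplicit false

open MvPolynomial Module Pool.Agent.H77.TF Pool.Agent.H79.TD

namespace Pool.Agent.H42.TD

theorem fin6_of (hNUM : S_NUM) (hFRE : S_FRE) (hCHI : S_CHI) (hSZB : Pool.Agent.H79.TD.S_SZB)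
    (hGRD : S_GRD) (hCIF : S_CIF) (hCIB : S_CIB) (hSUF : S_SUF) (hBP3 : S_BP3) (hBIJ : S_BIJ)
    (hLT2 : S_LT2) (hDU2 : S_DU2) : S_FIN6 := by
  intro K _ _
  -- free and not empty
  have key : ∀ (n : ℕ) (A : Fin n → Fin 3 → K), 1 ≤ n → Simple A → (Pts A).Nonempty →
      Module.Free (MvPolynomial (Fin 3) K) (LD A) →
      ∃ (u w : ℕ) (f g : MvPolynomial (Fin 3) K), 1 ≤ u ∧ u ≤ w ∧
        u + w + n = 2 * Fintype.card K + 1 ∧ f.IsHomogeneous u ∧ g.IsHomogeneous w ∧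
        van A = Ideal.span {f, g} ∧ uncD A = u * w ∧ ∀ k < u, VD A k = ⊥ := by
    intro n A hn hA hP hF
    have : Nonempty (Fin n) := ⟨⟨0, hn⟩⟩
    obtain ⟨e, he⟩ := hGRD K 3 (Fin n) A hA hF
    obtain ⟨u, v, f, g, hf, hg, hd, hv⟩ := hCIF K (Fin n) A e hA hP he
    rcases le_total u v with h | h
    · obtain ⟨h1, h2, h3⟩ := hCHI K (Fin n) A u v f g hA hP h hf hg hd hv
      rw [Fintype.card_fin] at hd
      exact ⟨u, v, f, g, h1, h, hd, hf, hg, hv, h2, h3⟩
    · have hd' : v + u + Fintype.card (Fin n) = 2 * Fintype.card K + 1 := by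
        rw [← hd, add_comm v u]
      have hv' : van A = Ideal.span {g, f} := by rw [hv, Set.pair_comm]
      obtain ⟨h1, h2, h3⟩ := hCHI K (Fin n) A v u g f hA hP h hg hf hd' hv'
      rw [Fintype.card_fin] at hd'
      exact ⟨v, u, g, f, h1, h, hd', hg, hf, hv', h2, h3⟩
  -- nonempty
  have hne : ∀ (n : ℕ) (A : Fin n → Fin 3 → K), 1 ≤ n → uncD A ≠ 0 → (Pts A).Nonempty := by
    intro n A hn h
    have : Nonempty (Fin n) := ⟨⟨0, hn⟩⟩
    by_contra hc
    rw [Set.not_nonempty_iff_eq_empty] at hc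
    exact h (uncD_eq_zero.2 ((hBP3 K (Fin n) A).1 hc))
  -- empty
  have hem : ∀ (n : ℕ) (A : Fin n → Fin 3 → K), 1 ≤ n → Simple A → Pts A = ∅ →
      Module.Free (MvPolynomial (Fin 3) K) (LD A) := by
    intro n A hn hA h
    have : Nonempty (Fin n) := ⟨⟨0, hn⟩⟩
    exact free_of_hasExp (hSUF K 3 (Fin n) A (by norm_num) hA ((hBP3 K (Fin n) A).1 h)).1
  -- no small forms imply the exponents
  have h32 : ∀ (n : ℕ) (A : Fin n → Fin 3 → K), 1 ≤ n → Simple A → ∀ u w : ℕ, 1 ≤ u → u ≤ w →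
      u + w + n = 2 * Fintype.card K + 1 → uncD A = u * w → (∀ k < u, VD A k = ⊥) →
      HasExp A ![1, Fintype.card K - w, Fintype.card K - u] := by
    intro n A hn hA u w hu huw hs hunc hk
    have : Nonempty (Fin n) := ⟨⟨0, hn⟩⟩
    have hs' : u + w + Fintype.card (Fin n) = 2 * Fintype.card K + 1 := by
      rw [Fintype.card_fin]; exact hs
    obtain ⟨f, g, hf0, hf, hg, hfg⟩ := (hNUM K (Fin n) A u w hA hu huw hs' hunc).2 hk
    exact hFRE K (Fin n) A u w f g hA hf0 hf hk hg hfg hs'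
  -- the automatic case
  have haut : ∀ (n : ℕ) (A : Fin n → Fin 3 → K), 1 ≤ n → Simple A → ∀ u w : ℕ, 1 ≤ u → u ≤ w →
      u + w + n = 2 * Fintype.card K + 1 → uncD A = u * w →
      (Fintype.card K - w) * u < Fintype.card K →
      HasExp A ![1, Fintype.card K - w, Fintype.card K - u] := by
    intro n A hn hA u w hu huw hs hunc hlt
    have : Nonempty (Fin n) := ⟨⟨0, hn⟩⟩
    refine h32 n A hn hA u w hu huw hs hunc ?_
    intro k hk
    by_contra hc
    obtain ⟨h, hh, hh0⟩ := (Submodule.ne_bot_iff _).1 hc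
    have h1 := hSZB K (Fin n) A k h hh0 hh
    rw [hunc] at h1
    have h2 : k * Fintype.card K ≤ (u - 1) * Fintype.card K := Nat.mul_le_mul_right _ (by omega)
    obtain ⟨u', rfl⟩ : ∃ u', u = u' + 1 := ⟨u - 1, by omega⟩
    rw [Nat.add_sub_cancel] at h2
    rcases le_total w (Fintype.card K) with hw | hw
    · obtain ⟨d, hd⟩ : ∃ d, Fintype.card K = w + d := ⟨Fintype.card K - w, by omega⟩
      rw [hd] at hlt h1 h2
      rw [Nat.add_sub_cancel_left] at hlt
      nlinarith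
    · have hpos : 0 < Fintype.card K := Fintype.card_pos
      nlinarith
  refine ⟨fun n A hn hA => ?_, ?_⟩
  · rw [hDU2 K 3 (Fin n) A (by norm_num)]
    have : Nonempty (Fin n) := ⟨⟨0, hn⟩⟩
    refine ⟨⟨fun hF => ?_, fun h => ?_⟩, fun u w hu huw hs => ?_⟩
    · by_cases h0 : uncD A = 0
      · exact Or.inl h0
      · obtain ⟨u, w, f, g, h1, h2, h3, h4, h5, h6, _⟩ := key n A hn hA (hne n A hn h0) hF
        exact Or.inr ⟨u, w, f, g, h1, h2, h3, h4, h5, h6⟩
    · rcases Set.eq_empty_or_nonempty (Pts A) with hP | hP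
      · exact hem n A hn hA hP
      · rcases h with h | ⟨u, w, f, g, _, _, hd, hf, hg, hv⟩
        · have h1 := (hBP3 K (Fin n) A).2 (uncD_eq_zero.1 h)
          rw [h1] at hP
          exact absurd hP Set.not_nonempty_empty
        · exact free_of_hasExp (hCIB K (Fin n) A u w f g hA hP hf hg
            (by rw [Fintype.card_fin]; exact hd) hv)
    · have hs' : u + w + Fintype.card (Fin n) = 2 * Fintype.card K + 1 := by
        rw [Fintype.card_fin]; exact hs
      have hpos : u * w ≠ 0 := Nat.mul_ne_zero (by omega) (by omega)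
      refine ⟨?_, fun hunc => ⟨?_, fun h => haut n A hn hA u w hu huw hs hunc h⟩⟩
      · tfae_have 1 → 4 := by
          rintro ⟨hF, hunc⟩
          have h0 : uncD A ≠ 0 := by rw [hunc]; exact hpos
          obtain ⟨u', w', f, g, h1, h2, h3, h4, h5, h6, h7, _⟩ := key n A hn hA (hne n A hn h0) hF
          have h8 : u = u' := pair_unique huw h2 (by omega) (by rw [← hunc, h7])
          have h9 : w = w' := by omega
          subst h8 h9
          exact ⟨h0, f, g, h4, h5, h6⟩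
        tfae_have 4 → 3 := by
          rintro ⟨h0, f, g, hf, hg, hv⟩
          obtain ⟨_, h2, h3⟩ := hCHI K (Fin n) A u w f g hA (hne n A hn h0) huw hf hg hs' hv
          exact ⟨fun k hk => VD_eq_bot.1 (h3 k hk), h2⟩
        tfae_have 3 → 2 := by
          rintro ⟨h, hunc⟩
          exact ⟨h32 n A hn hA u w hu huw hs hunc fun k hk => VD_eq_bot.2 (h k hk), hunc⟩
        tfae_have 2 → 1 := fun h => ⟨free_of_hasExp h.1, h.2⟩
        tfae_finish
      · obtain ⟨k, hk, hV⟩ := (hNUM K (Fin n) A u w hA hu huw hs' hunc).1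
        exact ⟨k, hk, exists_of_VD_ne_bot hV⟩
  · intro n m A B hA hB hiso u w hn hu huw hs hunc hlt
    obtain ⟨β, hβ⟩ := hBIJ K 3 n m A B hA hB hiso
    have hmn : m = n := by
      have := Fintype.card_congr β
      rw [Fintype.card_fin, Fintype.card_fin] at this
      exact this.symm
    have hu' := hLT2 K 3 n m A B hA hB β hβ
    rw [hDU2 K 3 (Fin n) A (by norm_num)] at hunc
    refine ⟨hmn, haut n A hn hA u w hu huw hs hunc hlt, ?_⟩
    subst hmn
    exact haut _ B hn hB u w hu huw hs (by rw [← hu', hunc]) hlt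

/-- **The merged theorem.** -/
theorem fin6 : S_FIN6 := by
  have hPRI : S_PRI := pri
  have hDET : S_DET := det
  have hSAI : S_SAI := Pool.Agent.H27.TF.sai hPRI hDET
  have hCFS : S_CFS := Pool.Agent.H64.TF.cfs
  have hDD3 : S_DD3 := Pool.Agent.H27.TF.dd3 hPRI hDET
  have hMR3 : S_MR3 := Pool.Agent.H6.TC.mr3
  have hGC3 : S_GC3 := gc3
  have hKR3 : S_KR3 := Pool.Agent.H91.TF.kr3 hGC3
  have hCIF : S_CIF := Pool.Agent.H12.TF.cif hDD3 hMR3 hGC3 hCFS hPRI hDET
  have hCIB : S_CIB := Pool.Agent.H15.TF.cib hDD3 hMR3 hGC3 hKR3 hSAI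
  have hDIM : Pool.Agent.H79.TD.S_DIM := Pool.Agent.H53.TD.t_DIM
  have hREP : S_REP := Pool.Agent.H27.TD.t_REP
  have hSUM : S_SUM := Pool.Agent.H27.TD.t_SUM
  have hDU3 : S_DU3 := Pool.Agent.H53.TD.t_DU3 hDIM hREP hSUM
  have hCOR : S_COR := Pool.Agent.H6.TD.t_COR
  have hBRK : S_BRK := Pool.Agent.H39.TD.t_BRK hDD3 hMR3 hKR3 hCOR
  have hFRE : S_FRE := Pool.Agent.H15.TD.t_FRE hDD3 hMR3 hKR3 hSAI hPRI hCOR
  have hINQ : S_INQ := Pool.Agent.H76.TD.t_INQ hDIM hDU3 hBRK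
  have hNUM : S_NUM := Pool.Agent.H1.TD.t_NUM hDIM hDU3 hINQ
  have hBEZ : S_BEZ := Pool.Agent.H22.TD.t_BEZ hDIM hREP hGC3
  have hCHI : S_CHI := Pool.Agent.H6.TD.t_CHI hBEZ hINQ hGC3
  have hSZB : Pool.Agent.H79.TD.S_SZB := Pool.Agent.H23.TD.t_SZB hREP
  have hSUF : S_SUF := Pool.Agent.H75.TF.suf hPRI Pool.Agent.H22.TF.mdt hSAI
    (Pool.Agent.H39.TF.stp (ful hSAI Pool.Agent.H22.TF.mdt))
  exact fin6_of hNUM hFRE hCHI hSZB Pool.Agent.H10.TF.grd hCIF hCIB hSUF bp3 Pool.Agent.H40.TF.bij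
    Pool.Agent.H40.TF.lt2 Pool.Agent.H83.TF.du2

end Pool.Agent.H42.TD
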